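import Mathlib
import Pool.Agent.Q155.Simp.Defs
import Pool.Agent.Q155.Simp.Model
import Pool.Agent.Q155.Simp.Ref

/-!
# MP_b5b962_gt: preimages of distinct extreme points can share a vertex

The hexagon `Dif 3` has a simplicial refinement by a 5-simplex in which a vertex of the simplex has a
positive barycentric coefficient at a point over each of two distinct extreme points.
-/

set_option autoImplicit false
open Set Pool.Agent.Q155.Simp

namespace Pool.Agent.Results.MP_b5b962_gt.SharedVertex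

/-- some point of the domain `Df` mapped to `a` has a positive barycentric coefficient at the
vertex `v k` of the simplex with vertices `v` -/
def PositiveOver {E F : Type*} [AddCommGroup F] [Module ℝ F] {ι : Type*} [Fintype ι]
    (v : ι → F) (Df : Set F) (f : F → E) (a : E) (k : ι) : Prop :=
  ∃ (x : F) (w : ι → ℝ), x ∈ Df ∧ f x = a ∧ (∀ i, 0 ≤ w i) ∧ ∑ i, w i = 1 ∧
    x = ∑ i, w i • v i ∧ 0 < w k

theorem result : ∃ (C : Set (Fin 3 → ℝ)) (T : Set (Fin 3 ⊕ Fin 3 → ℝ))
    (v : Fin 3 ⊕ Fin 3 → (Fin 3 ⊕ Fin 3 → ℝ)) (Df : Set (Fin 3 ⊕ Fin 3 → ℝ))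
    (f : (Fin 3 ⊕ Fin 3 → ℝ) → (Fin 3 → ℝ)) (Dg : Set (T → ℝ)) (g : (T → ℝ) → (C → ℝ))
    (a b : Fin 3 → ℝ) (k : Fin 3 ⊕ Fin 3),
    IsPolytope C ∧ ¬ IsSimplex C ∧ IsSimplexWith T v ∧ IsRefinement C T Df f Dg g ∧
    a ∈ C.extremePoints ℝ ∧ b ∈ C.extremePoints ℝ ∧ a ≠ b ∧
    PositiveOver v Df f a k ∧ PositiveOver v Df f b k := by
  classical
  obtain ⟨Dg, g, h⟩ := exists_refinement_Dif (n := 3) (by omega)
  have h01 : (0 : Fin 3) ≠ 1 := by decide
  have h02 : (0 : Fin 3) ≠ 2 := by decide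
  have key : ∀ j : Fin 3, (0 : Fin 3) ≠ j → PositiveOver
      (fun k : Fin 3 ⊕ Fin 3 => (Pi.single k (1 : ℝ) : Fin 3 ⊕ Fin 3 → ℝ)) (DD 3) ff
      (pt 0 j) (Sum.inl 0) := by
    intro j hj
    set w : Fin 3 ⊕ Fin 3 → ℝ := Sum.elim (Pi.single 0 (1 / 2)) (Pi.single j (1 / 2)) with hw
    have hw0 : ∀ i, 0 ≤ w i := by
      rintro (i | i)
      · simp only [hw, Sum.elim_inl, Pi.single_apply]
        split_ifs <;> norm_num
      · simp only [hw, Sum.elim_inr, Pi.single_apply]
        split_ifs <;> norm_num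
    have hl : ∑ i, w (Sum.inl i) = 1 / 2 := by
      simp only [hw, Sum.elim_inl, Pi.single_apply]
      rw [Finset.sum_ite_eq']
      simp
    have hr : ∑ i, w (Sum.inr i) = 1 / 2 := by
      simp only [hw, Sum.elim_inr, Pi.single_apply]
      rw [Finset.sum_ite_eq']
      simp
    have hsum : ∑ i, w i = 1 := by
      rw [Fintype.sum_sum_type, hl, hr]
      norm_num
    refine ⟨w, w, ⟨⟨hw0, hsum⟩, hl⟩, ?_, hw0, hsum, ?_, ?_⟩
    · funext i
      simp only [ff, pt, hw, Sum.elim_inl, Sum.elim_inr, Pi.single_apply]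
      split_ifs <;> norm_num
    · funext i
      rw [Finset.sum_apply]
      simp only [Pi.smul_apply, smul_eq_mul]
      rw [Finset.sum_eq_single i]
      · simp
      · intro b _ hb
        rw [Pi.single_eq_of_ne (Ne.symm hb), mul_zero]
      · simp
    · simp [hw]
  refine ⟨Dif 3, TT 3, _, DD 3, ff, Dg, g, pt 0 1, pt 0 2, Sum.inl 0, isPolytope_Dif (by omega),
    not_isSimplex_Dif (by omega), isSimplexWith_TT 3, h, pt_mem_extremePoints h01,
    pt_mem_extremePoints h02, ?_, key 1 h01, key 2 h02⟩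
  intro he
  exact absurd (pt_injective h01 h02 he).2 (by decide)

end Pool.Agent.Results.MP_b5b962_gt.SharedVertex
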